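import Pool.Agent.Helper57.QZ.Stmts2

/-!
# Bounds for the smoothing coefficients
-/

set_option autoImplicit false

namespace Pool.Agent.Helper57.QZ

open MeasureTheory Set Filter Topology

theorem ke1_ne_re {a : ℝ} (ha : a ≠ 0) (y : ℝ) : (a : ℂ) + (y : ℂ) * Complex.I ≠ 0 := by
  intro h
  apply ha
  have := congrArg Complex.re h
  simpa using this

theorem ke1_ne_im {b : ℝ} (hb : b ≠ 0) (x : ℝ) : (x : ℂ) + (b : ℂ) * Complex.I ≠ 0 := by
  intro h
  apply hb
  have := congrArg Complex.im h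
  simpa using this

theorem ke1_inv (x y : ℝ) (h : (x : ℂ) + (y : ℂ) * Complex.I ≠ 0) :
    1 / ((x : ℂ) + (y : ℂ) * Complex.I) =
      ((x / (x ^ 2 + y ^ 2) : ℝ) : ℂ) - Complex.I * ((y / (x ^ 2 + y ^ 2) : ℝ) : ℂ) := by
  have hpos : x ^ 2 + y ^ 2 ≠ 0 := by
    intro h0
    apply h
    have hx : x = 0 := by nlinarith [sq_nonneg x, sq_nonneg y]
    have hy : y = 0 := by nlinarith [sq_nonneg x, sq_nonneg y]
    simp [hx, hy]
  have hc : ((x ^ 2 + y ^ 2 : ℝ) : ℂ) ≠ 0 := by exact_mod_cast hpos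
  rw [div_eq_iff h]
  have hI : Complex.I * Complex.I = -1 := Complex.I_mul_I
  have e : (((x / (x ^ 2 + y ^ 2) : ℝ) : ℂ) - Complex.I * ((y / (x ^ 2 + y ^ 2) : ℝ) : ℂ)) *
      ((x : ℂ) + (y : ℂ) * Complex.I) =
      ((x : ℂ) ^ 2 - (y : ℂ) ^ 2 * (Complex.I * Complex.I)) / ((x ^ 2 + y ^ 2 : ℝ) : ℂ) := by
    push_cast
    ring
  rw [e, hI]
  rw [eq_div_iff hc]
  push_cast
  ring

/-- one vertical side -/
theorem ke1_edge (a H : ℝ) (ha : a ≠ 0) :
    ∫ y in (-H)..H, 1 / ((a : ℂ) + (y : ℂ) * Complex.I) =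
      ((2 * Real.arctan (H / a) : ℝ) : ℂ) := by
  have hd : ∀ y ∈ uIcc (-H) H, HasDerivAt (fun y : ℝ => ((Real.arctan (y / a) : ℝ) : ℂ) -
      Complex.I * ((Real.log (a ^ 2 + y ^ 2) / 2 : ℝ) : ℂ))
      (1 / ((a : ℂ) + (y : ℂ) * Complex.I)) y := by
    intro y _
    have hpos : 0 < a ^ 2 + y ^ 2 := by positivity
    have h1 : HasDerivAt (fun y : ℝ => Real.arctan (y / a)) (a / (a ^ 2 + y ^ 2)) y := by
      have := ((hasDerivAt_id' y).div_const a).arctan
      refine this.congr_deriv ?_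
      field_simp
    have h2 : HasDerivAt (fun y : ℝ => Real.log (a ^ 2 + y ^ 2) / 2) (y / (a ^ 2 + y ^ 2)) y := by
      have := (((hasDerivAt_pow 2 y).const_add (a ^ 2)).log hpos.ne').div_const 2
      refine this.congr_deriv ?_
      norm_num
      field_simp
    rw [ke1_inv a y (ke1_ne_re ha y)]
    exact (h1.ofReal_comp).sub ((h2.ofReal_comp).const_mul Complex.I)
  have hint : IntervalIntegrable (fun y : ℝ => 1 / ((a : ℂ) + (y : ℂ) * Complex.I)) volume
      (-H) H := by
    apply Continuous.intervalIntegrable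
    apply Continuous.div continuous_const (by fun_prop)
    exact fun y => ke1_ne_re ha y
  rw [intervalIntegral.integral_eq_sub_of_hasDerivAt hd hint]
  have e1 : -H / a = -(H / a) := by ring
  rw [e1, Real.arctan_neg]
  have e2 : a ^ 2 + (-H) ^ 2 = a ^ 2 + H ^ 2 := by ring
  rw [e2]
  push_cast
  ring

/-- the two horizontal sides -/
theorem ke1_hor (a c H : ℝ) (hH : 0 < H) :
    (∫ x in a..c, 1 / ((x : ℂ) + ((-H : ℝ) : ℂ) * Complex.I)) -
      (∫ x in a..c, 1 / ((x : ℂ) + (H : ℂ) * Complex.I)) =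
      Complex.I * ((2 * (Real.arctan (c / H) - Real.arctan (a / H)) : ℝ) : ℂ) := by
  rw [← intervalIntegral.integral_sub]
  · have hd : ∀ x ∈ uIcc a c, HasDerivAt (fun x : ℝ =>
        Complex.I * ((2 * Real.arctan (x / H) : ℝ) : ℂ))
        (1 / ((x : ℂ) + ((-H : ℝ) : ℂ) * Complex.I) - 1 / ((x : ℂ) + (H : ℂ) * Complex.I)) x := by
      intro x _
      have hpos : 0 < x ^ 2 + H ^ 2 := by positivity
      have h1 : HasDerivAt (fun x : ℝ => 2 * Real.arctan (x / H)) (2 * (H / (x ^ 2 + H ^ 2))) x := by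
        have := (((hasDerivAt_id' x).div_const H).arctan).const_mul 2
        refine this.congr_deriv ?_
        field_simp
        try ring
      have h2 := (h1.ofReal_comp).const_mul Complex.I
      refine h2.congr_deriv ?_
      rw [ke1_inv x (-H) (ke1_ne_im (by linarith) x), ke1_inv x H (ke1_ne_im hH.ne' x)]
      have e : x ^ 2 + (-H) ^ 2 = x ^ 2 + H ^ 2 := by ring
      rw [e]
      push_cast
      ring
    rw [intervalIntegral.integral_eq_sub_of_hasDerivAt hd]
    · push_cast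
      ring
    · apply Continuous.intervalIntegrable
      apply Continuous.sub
      · exact Continuous.div continuous_const (by fun_prop)
          (fun x => ke1_ne_im (by linarith : (-H) ≠ 0) x)
      · exact Continuous.div continuous_const (by fun_prop) (fun x => ke1_ne_im hH.ne' x)
  · apply Continuous.intervalIntegrable
    exact Continuous.div continuous_const (by fun_prop)
      (fun x => ke1_ne_im (by linarith : (-H) ≠ 0) x)
  · apply Continuous.intervalIntegrable
    exact Continuous.div continuous_const (by fun_prop) (fun x => ke1_ne_im hH.ne' x)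

/-- the residue theorem for a rectangle -/
theorem ke1_res (a c H : ℝ) (ha : a < 0) (hc : 0 < c) (hH : 0 < H) (g : ℂ → ℂ)
    (hg : Differentiable ℂ g) :
    (∫ x in a..c, g ((x : ℂ) + ((-H : ℝ) : ℂ) * Complex.I) /
        ((x : ℂ) + ((-H : ℝ) : ℂ) * Complex.I)) -
      (∫ x in a..c, g ((x : ℂ) + (H : ℂ) * Complex.I) / ((x : ℂ) + (H : ℂ) * Complex.I)) +
      Complex.I * (∫ y in (-H)..H, g ((c : ℂ) + (y : ℂ) * Complex.I) /
        ((c : ℂ) + (y : ℂ) * Complex.I)) -
      Complex.I * (∫ y in (-H)..H, g ((a : ℂ) + (y : ℂ) * Complex.I) /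
        ((a : ℂ) + (y : ℂ) * Complex.I)) = 2 * Real.pi * Complex.I * g 0 := by
  have hds : Differentiable ℂ (dslope g 0) := by
    intro w
    have h1 : DifferentiableOn ℂ (dslope g 0) univ :=
      (Complex.differentiableOn_dslope (c := 0) Filter.univ_mem).2 hg.differentiableOn
    exact h1.differentiableAt Filter.univ_mem
  have hval : ∀ w : ℂ, w ≠ 0 → g w / w = dslope g 0 w + g 0 * (1 / w) := by
    intro w hw
    rw [dslope_of_ne _ hw, slope_def_field]
    field_simp
    ring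
  have hcd : Continuous (dslope g 0) := hds.continuous
  have hgoursat := Complex.integral_boundary_rect_eq_zero_of_differentiableOn (dslope g 0)
    ((a : ℂ) + ((-H : ℝ) : ℂ) * Complex.I) ((c : ℂ) + (H : ℂ) * Complex.I) hds.differentiableOn
  have r1 : ((a : ℂ) + ((-H : ℝ) : ℂ) * Complex.I).re = a := by simp
  have r2 : ((a : ℂ) + ((-H : ℝ) : ℂ) * Complex.I).im = -H := by simp
  have r3 : ((c : ℂ) + (H : ℂ) * Complex.I).re = c := by simp
  have r4 : ((c : ℂ) + (H : ℂ) * Complex.I).im = H := by simp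
  rw [r1, r2, r3, r4] at hgoursat
  have s1 : ∀ b : ℝ, b ≠ 0 → (∫ x in a..c, g ((x : ℂ) + (b : ℂ) * Complex.I) /
      ((x : ℂ) + (b : ℂ) * Complex.I)) = (∫ x in a..c, dslope g 0 ((x : ℂ) + (b : ℂ) * Complex.I)) +
        g 0 * ∫ x in a..c, 1 / ((x : ℂ) + (b : ℂ) * Complex.I) := by
    intro b hb
    rw [← intervalIntegral.integral_const_mul, ← intervalIntegral.integral_add]
    · exact intervalIntegral.integral_congr (fun x _ => hval _ (ke1_ne_im hb x))
    · exact (hcd.comp (by fun_prop)).intervalIntegrable _ _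
    · apply Continuous.intervalIntegrable
      exact continuous_const.mul (Continuous.div continuous_const (by fun_prop)
        (fun x => ke1_ne_im hb x))
  have s2 : ∀ b : ℝ, b ≠ 0 → (∫ y in (-H)..H, g ((b : ℂ) + (y : ℂ) * Complex.I) /
      ((b : ℂ) + (y : ℂ) * Complex.I)) =
        (∫ y in (-H)..H, dslope g 0 ((b : ℂ) + (y : ℂ) * Complex.I)) +
        g 0 * ∫ y in (-H)..H, 1 / ((b : ℂ) + (y : ℂ) * Complex.I) := by
    intro b hb
    rw [← intervalIntegral.integral_const_mul, ← intervalIntegral.integral_add]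
    · exact intervalIntegral.integral_congr (fun y _ => hval _ (ke1_ne_re hb y))
    · exact (hcd.comp (by fun_prop)).intervalIntegrable _ _
    · apply Continuous.intervalIntegrable
      exact continuous_const.mul (Continuous.div continuous_const (by fun_prop)
        (fun y => ke1_ne_re hb y))
  rw [s1 (-H) (by linarith), s1 H hH.ne', s2 c hc.ne', s2 a ha.ne]
  have hh := ke1_hor a c H hH
  have e1 := ke1_edge c H hc.ne'
  have e2 := ke1_edge a H ha.ne
  have t1 : Real.arctan (c / H) + Real.arctan (H / c) = Real.pi / 2 := by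
    have := Real.arctan_inv_of_pos (div_pos hc hH)
    rw [inv_div] at this
    linarith
  have t2 : Real.arctan (a / H) + Real.arctan (H / a) = -(Real.pi / 2) := by
    have := Real.arctan_inv_of_neg (div_neg_of_neg_of_pos ha hH)
    rw [inv_div] at this
    linarith
  have t3 : (2 * (Real.arctan (c / H) - Real.arctan (a / H)) + 2 * Real.arctan (H / c) -
      2 * Real.arctan (H / a) : ℝ) = 2 * Real.pi := by linarith
  have t4 : (((2 * (Real.arctan (c / H) - Real.arctan (a / H)) : ℝ) : ℂ) +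
      ((2 * Real.arctan (H / c) : ℝ) : ℂ) - ((2 * Real.arctan (H / a) : ℝ) : ℂ)) =
      2 * (Real.pi : ℂ) := by
    rw [← Complex.ofReal_add, ← Complex.ofReal_sub, t3]
    push_cast
    ring
  simp only [smul_eq_mul] at hgoursat
  rw [e1, e2]
  linear_combination hgoursat + g 0 * hh + g 0 * Complex.I * t4

/-- the integrand without the denominator -/
noncomputable def ke1g (b : ℝ) (w : ℂ) : ℂ := (b : ℂ) ^ w * Complex.exp (w ^ 2)

theorem ke1g_diff {b : ℝ} (hb : 0 < b) : Differentiable ℂ (ke1g b) := by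
  intro w
  have hb' : (b : ℂ) ≠ 0 := by exact_mod_cast hb.ne'
  unfold ke1g
  exact (DifferentiableAt.const_cpow differentiableAt_id (Or.inl hb')).mul
    ((differentiableAt_id.pow 2).cexp)

theorem ke1g_norm {b : ℝ} (hb : 0 < b) (r v : ℝ) :
    ‖ke1g b ((r : ℂ) + (v : ℂ) * Complex.I)‖ = b ^ r * Real.exp (r ^ 2 - v ^ 2) := by
  unfold ke1g
  rw [norm_mul, Complex.norm_cpow_eq_rpow_re_of_pos hb, Complex.norm_exp]
  have e1 : ((r : ℂ) + (v : ℂ) * Complex.I).re = r := by simp
  have e2 : (((r : ℂ) + (v : ℂ) * Complex.I) ^ 2).re = r ^ 2 - v ^ 2 := by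
    rw [pow_two, Complex.mul_re]
    simp
    ring
  rw [e1, e2]

theorem ke1_exp (r v : ℝ) (hr : |r| ≤ 9 / 2) :
    Real.exp (r ^ 2 - v ^ 2) ≤ Real.exp 21 * (1 / (1 + v ^ 2)) := by
  have h1 : r ^ 2 ≤ 21 := by
    have := sq_le_sq' (by linarith [neg_abs_le r, abs_nonneg r] : -(9 / 2 : ℝ) ≤ |r|) hr
    rw [sq_abs] at this
    linarith
  rw [Real.exp_sub, div_eq_mul_one_div]
  have h2 : 1 + v ^ 2 ≤ Real.exp (v ^ 2) := by linarith [Real.add_one_le_exp (v ^ 2)]
  apply mul_le_mul (Real.exp_le_exp.2 h1) _ (by positivity) (by positivity)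
  exact one_div_le_one_div_of_le (by positivity) h2

/-- vertical sides -/
theorem ke1_ver {b : ℝ} (hb : 0 < b) (r H : ℝ) (hr : |r| ≤ 9 / 2) (hr1 : 1 ≤ |r|) (hH : 0 ≤ H) :
    ‖∫ v in (-H)..H, ke1g b ((r : ℂ) + (v : ℂ) * Complex.I) / ((r : ℂ) + (v : ℂ) * Complex.I)‖ ≤
      b ^ r * Real.exp 21 * Real.pi := by
  have h1 : ∀ v : ℝ, ‖ke1g b ((r : ℂ) + (v : ℂ) * Complex.I) /
      ((r : ℂ) + (v : ℂ) * Complex.I)‖ ≤ b ^ r * Real.exp 21 * (1 / (1 + v ^ 2)) := by
    intro v
    have h2 : 1 ≤ ‖(r : ℂ) + (v : ℂ) * Complex.I‖ := by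
      have := Complex.abs_re_le_norm ((r : ℂ) + (v : ℂ) * Complex.I)
      have e1 : ((r : ℂ) + (v : ℂ) * Complex.I).re = r := by simp
      rw [e1] at this
      linarith
    rw [norm_div, ke1g_norm hb, mul_assoc (b ^ r)]
    refine (div_le_self (by positivity) h2).trans ?_
    exact mul_le_mul_of_nonneg_left (ke1_exp r v hr) (by positivity)
  refine (intervalIntegral.norm_integral_le_of_norm_le (by linarith)
    (Filter.Eventually.of_forall (fun v _ => h1 v)) ?_).trans ?_
  · apply Continuous.intervalIntegrable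
    exact continuous_const.mul (Continuous.div continuous_const (by fun_prop)
      (fun v => by positivity))
  · rw [intervalIntegral.integral_const_mul, integral_one_div_one_add_sq]
    have h3 := Real.arctan_lt_pi_div_two H
    rw [Real.arctan_neg]
    apply mul_le_mul_of_nonneg_left _ (by positivity)
    linarith

theorem st_KE1 : ST_KE1 := by
  refine ⟨2 * Real.exp 21, by positivity, ?_⟩
  intro Y H x n hY hH hx hn
  obtain ⟨hx1, hx2⟩ := hx
  have hn0 : (0 : ℝ) < n := by exact_mod_cast hn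
  have hn1 : (1 : ℝ) ≤ n := by exact_mod_cast hn
  have hY0 : 0 < Y := by linarith
  set b : ℝ := Y / n with hbdef
  have hb : 0 < b := div_pos hY0 hn0
  have ha1 : 1 ≤ 5 - x := by linarith
  have ha2 : 5 - x ≤ 9 / 2 := by linarith
  have habs : |5 - x| = 5 - x := abs_of_nonneg (by linarith)
  have hpi := Real.pi_pos
  have hKK : KK Y H x n = (1 / (2 * Real.pi) : ℝ) * ∫ v in (-H)..H,
      ke1g b (((5 - x : ℝ) : ℂ) + (v : ℂ) * Complex.I) /
        (((5 - x : ℝ) : ℂ) + (v : ℂ) * Complex.I) := rfl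
  have hR := ke1_ver hb (5 - x) H (by rw [habs]; exact ha2) (by rw [habs]; exact ha1)
    (by linarith)
  have hnorm : ‖((1 / (2 * Real.pi) : ℝ) : ℂ)‖ = 1 / (2 * Real.pi) := by
    rw [Complex.norm_real, Real.norm_of_nonneg (by positivity)]
  constructor
  · rw [hKK, norm_mul, hnorm]
    refine (mul_le_mul_of_nonneg_left hR (by positivity)).trans ?_
    have : 1 / (2 * Real.pi) * (b ^ (5 - x) * Real.exp 21 * Real.pi) =
        Real.exp 21 * b ^ (5 - x) / 2 := by
      field_simp
    rw [this]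
    have : 0 < Real.exp 21 * b ^ (5 - x) := by positivity
    nlinarith
  · intro hnY
    have hb1 : 1 ≤ b := by rw [hbdef, one_le_div hn0]; exact hnY
    have hbY : b ≤ Y := div_le_self hY0.le hn1
    have hres := ke1_res (-1) (5 - x) H (by norm_num) (by linarith) (by linarith) (ke1g b)
      (ke1g_diff hb)
    have hg0 : ke1g b 0 = 1 := by
      unfold ke1g
      simp
    rw [hg0, mul_one] at hres
    have hL := ke1_ver hb (-1) H (by norm_num) (by norm_num) (by linarith)
    have hhor : ∀ h : ℝ, (h = H ∨ h = -H) →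
        ‖∫ t in (-1 : ℝ)..(5 - x), ke1g b ((t : ℂ) + (h : ℂ) * Complex.I) /
          ((t : ℂ) + (h : ℂ) * Complex.I)‖ ≤ 6 * Real.exp 21 * (Y ^ (5:ℝ) * Real.exp (-(H ^ 2))) := by
      intro h hh
      have hh2 : h ^ 2 = H ^ 2 := by rcases hh with rfl | rfl <;> ring
      have hh1 : 1 ≤ |h| := by
        rcases hh with rfl | rfl
        · exact hH.trans (le_abs_self _)
        · rw [abs_neg]; exact hH.trans (le_abs_self _)
      have hb5 : ∀ t ∈ Set.uIoc (-1 : ℝ) (5 - x), ‖ke1g b ((t : ℂ) + (h : ℂ) * Complex.I) /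
          ((t : ℂ) + (h : ℂ) * Complex.I)‖ ≤ Real.exp 21 * (Y ^ (5:ℝ) * Real.exp (-(H ^ 2))) := by
        intro t ht
        rw [Set.uIoc_of_le (by linarith)] at ht
        have h2 : 1 ≤ ‖(t : ℂ) + (h : ℂ) * Complex.I‖ := by
          have := Complex.abs_im_le_norm ((t : ℂ) + (h : ℂ) * Complex.I)
          have e1 : ((t : ℂ) + (h : ℂ) * Complex.I).im = h := by simp
          rw [e1] at this
          linarith
        rw [norm_div, ke1g_norm hb]
        refine (div_le_self (by positivity) h2).trans ?_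
        rw [hh2, sub_eq_add_neg, Real.exp_add]
        have h3 : b ^ t ≤ Y ^ (5:ℝ) := by
          calc b ^ t ≤ b ^ (5:ℝ) := Real.rpow_le_rpow_of_exponent_le hb1 (by linarith [ht.2])
            _ ≤ Y ^ (5:ℝ) := Real.rpow_le_rpow hb.le hbY (by norm_num)
        have h4 : Real.exp (t ^ 2) ≤ Real.exp 21 := by
          apply Real.exp_le_exp.2
          have := ht.1; have := ht.2
          nlinarith
        calc b ^ t * (Real.exp (t ^ 2) * Real.exp (-(H ^ 2)))
            ≤ Y ^ (5:ℝ) * (Real.exp 21 * Real.exp (-(H ^ 2))) := by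
              apply mul_le_mul h3 _ (by positivity) (by positivity)
              exact mul_le_mul_of_nonneg_right h4 (by positivity)
          _ = _ := by ring
      refine (intervalIntegral.norm_integral_le_of_norm_le_const hb5).trans ?_
      have h6 : |5 - x - -1| ≤ 6 := by
        rw [abs_of_nonneg (by linarith)]
        linarith
      have h7 : 0 ≤ Real.exp 21 * (Y ^ (5:ℝ) * Real.exp (-(H ^ 2))) := by positivity
      calc Real.exp 21 * (Y ^ (5:ℝ) * Real.exp (-(H ^ 2))) * |5 - x - -1|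
          ≤ Real.exp 21 * (Y ^ (5:ℝ) * Real.exp (-(H ^ 2))) * 6 :=
            mul_le_mul_of_nonneg_left h6 h7
        _ = _ := by ring
    have hb1' := hhor (-H) (Or.inr rfl)
    have hb2' := hhor H (Or.inl rfl)
    rw [hKK]
    set R : ℂ := ∫ v in (-H)..H, ke1g b (((5 - x : ℝ) : ℂ) + (v : ℂ) * Complex.I) /
        (((5 - x : ℝ) : ℂ) + (v : ℂ) * Complex.I) with hRdef
    set L : ℂ := ∫ v in (-H)..H, ke1g b (((-1 : ℝ) : ℂ) + (v : ℂ) * Complex.I) /
        (((-1 : ℝ) : ℂ) + (v : ℂ) * Complex.I) with hLdef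
    set B1 : ℂ := ∫ t in (-1 : ℝ)..(5 - x), ke1g b ((t : ℂ) + ((-H : ℝ) : ℂ) * Complex.I) /
          ((t : ℂ) + ((-H : ℝ) : ℂ) * Complex.I) with hB1def
    set B2 : ℂ := ∫ t in (-1 : ℝ)..(5 - x), ke1g b ((t : ℂ) + (H : ℂ) * Complex.I) /
          ((t : ℂ) + (H : ℂ) * Complex.I) with hB2def
    have hI : Complex.I * Complex.I = -1 := Complex.I_mul_I
    have hRval : R = 2 * Real.pi + L + Complex.I * (B1 - B2) := by
      linear_combination (-Complex.I) * hres + (R - L - 2 * Real.pi) * hI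
    have hpi0 : (Real.pi : ℂ) ≠ 0 := by exact_mod_cast hpi.ne'
    have hfin : ((1 / (2 * Real.pi) : ℝ) : ℂ) * R - 1 =
        ((1 / (2 * Real.pi) : ℝ) : ℂ) * (L + Complex.I * (B1 - B2)) := by
      rw [hRval]
      push_cast
      field_simp
      ring
    rw [hfin, norm_mul, hnorm]
    have hsum : ‖L + Complex.I * (B1 - B2)‖ ≤ b ^ (-1:ℝ) * Real.exp 21 * Real.pi +
        (6 * Real.exp 21 * (Y ^ (5:ℝ) * Real.exp (-(H ^ 2))) +
          6 * Real.exp 21 * (Y ^ (5:ℝ) * Real.exp (-(H ^ 2)))) := by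
      refine (norm_add_le _ _).trans (add_le_add hL ?_)
      rw [norm_mul, Complex.norm_I, one_mul]
      exact (norm_sub_le _ _).trans (add_le_add hb1' hb2')
    refine (mul_le_mul_of_nonneg_left hsum (by positivity)).trans ?_
    have hbinv : b ^ (-1:ℝ) = n / Y := by
      rw [Real.rpow_neg_one, hbdef, inv_div]
    rw [hbinv]
    have hpi3 : 3 < Real.pi := Real.pi_gt_three
    have hQ : 0 ≤ Real.exp 21 * (Y ^ (5:ℝ) * Real.exp (-(H ^ 2))) := by positivity
    have hP : 0 ≤ Real.exp 21 * (n / Y) := by positivity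
    have hrw : 1 / (2 * Real.pi) * (n / Y * Real.exp 21 * Real.pi +
        (6 * Real.exp 21 * (Y ^ (5:ℝ) * Real.exp (-(H ^ 2))) +
          6 * Real.exp 21 * (Y ^ (5:ℝ) * Real.exp (-(H ^ 2))))) =
        (1 / 2) * (Real.exp 21 * (n / Y)) +
          (6 / Real.pi) * (Real.exp 21 * (Y ^ (5:ℝ) * Real.exp (-(H ^ 2)))) := by
      field_simp
      ring
    rw [hrw]
    have h62 : 6 / Real.pi ≤ 2 := by
      rw [div_le_iff₀ hpi]
      linarith
    have := mul_le_mul_of_nonneg_right h62 hQ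
    nlinarith

end Pool.Agent.Helper57.QZ
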